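import Mathlib

/-!
# Definitions for the Rokhlin problem on `O_2`

* `SeqAlg A` is the sequence algebra `ℓ^∞(ℕ, A) / c_0(ℕ, A)`.
* `CAction G A` is a point-norm continuous action of a topological group on a unital C*-algebra.
-/

open scoped BoundedContinuousFunction
open Filter Topology

namespace Pool.Agent.RokO2

/-- The ideal of null sequences in the C*-algebra `ℓ^∞(ℕ, A)` of bounded sequences
(realised as bounded continuous functions on the discrete space `ℕ`). -/
def nullIdeal (A : Type*) [CStarAlgebra A] : Ideal (ℕ →ᵇ A) where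
  carrier := {x | Tendsto (fun n => x n) atTop (𝓝 0)}
  add_mem' := fun {x y} hx hy => by simpa using Tendsto.add hx hy
  zero_mem' := by
    change Tendsto (fun n => (0 : ℕ →ᵇ A) n) atTop (𝓝 0)
    simp
  smul_mem' := fun c x hx => by
    change Tendsto (fun n => (c * x) n) atTop (𝓝 0)
    have h1 : Tendsto (fun n => ‖c‖ * ‖x n‖) atTop (𝓝 0) := by
      have := (tendsto_norm_zero.comp hx).const_mul ‖c‖
      simpa using this
    refine squeeze_zero_norm (fun n => ?_) h1
    rw [BoundedContinuousFunction.coe_mul]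
    exact (norm_mul_le _ _).trans (mul_le_mul_of_nonneg_right (c.norm_coe_le_norm n)
      (norm_nonneg _))

theorem mem_nullIdeal {A : Type*} [CStarAlgebra A] {x : ℕ →ᵇ A} :
    x ∈ nullIdeal A ↔ Tendsto (fun n => x n) atTop (𝓝 0) := Iff.rfl

instance (A : Type*) [CStarAlgebra A] : (nullIdeal A).IsTwoSided where
  mul_mem_of_left := fun {x} c hx => by
    change Tendsto (fun n => (x * c) n) atTop (𝓝 0)
    have h1 : Tendsto (fun n => ‖x n‖ * ‖c‖) atTop (𝓝 0) := by
      have := (tendsto_norm_zero.comp hx).mul_const ‖c‖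
      simpa using this
    refine squeeze_zero_norm (fun n => ?_) h1
    rw [BoundedContinuousFunction.coe_mul]
    exact (norm_mul_le _ _).trans (mul_le_mul_of_nonneg_left (c.norm_coe_le_norm n)
      (norm_nonneg _))

instance isClosed_nullIdeal (A : Type*) [CStarAlgebra A] :
    IsClosed (nullIdeal A : Set (ℕ →ᵇ A)) := by
  rw [← isSeqClosed_iff_isClosed]
  intro u x hu hx
  change Tendsto (fun n => x n) atTop (𝓝 0)
  rw [Metric.tendsto_atTop]
  intro ε hε
  rw [Metric.tendsto_atTop] at hx
  obtain ⟨k, hk⟩ := hx (ε / 2) (by positivity)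
  have hk' := hk k le_rfl
  have huk : Tendsto (fun n => u k n) atTop (𝓝 0) := hu k
  rw [Metric.tendsto_atTop] at huk
  obtain ⟨N, hN⟩ := huk (ε / 2) (by positivity)
  refine ⟨N, fun n hn => ?_⟩
  calc dist (x n) 0 ≤ dist (x n) (u k n) + dist (u k n) 0 := dist_triangle _ _ _
    _ ≤ dist x (u k) + dist (u k n) 0 := by
        gcongr
        exact BoundedContinuousFunction.dist_coe_le_dist n
    _ < ε / 2 + ε / 2 := by
        have := hN n hn
        rw [dist_comm] at hk'
        linarith
    _ = ε := by ring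

/-- The sequence algebra `A_∞ = ℓ^∞(ℕ, A) / c_0(ℕ, A)`. -/
def SeqAlg (A : Type*) [CStarAlgebra A] : Type _ := (ℕ →ᵇ A) ⧸ nullIdeal A

namespace SeqAlg

variable {A : Type*} [CStarAlgebra A]

/-- The class of a bounded sequence. -/
noncomputable def mk (x : ℕ →ᵇ A) : SeqAlg A := Ideal.Quotient.mk (nullIdeal A) x

theorem mk_surjective : Function.Surjective (mk : (ℕ →ᵇ A) → SeqAlg A) :=
  Ideal.Quotient.mk_surjective

noncomputable instance : SeminormedAddCommGroup (ℕ →ᵇ A) := inferInstance

/-- auxiliary copy of the normed group structure of the quotient -/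
noncomputable abbrev auxNAG (A : Type*) [CStarAlgebra A] : NormedAddCommGroup (SeqAlg A) :=
  Submodule.Quotient.normedAddCommGroup (nullIdeal A)

theorem aux_norm_mk_le (x : ℕ →ᵇ A) : (auxNAG A).toNorm.norm (mk x) ≤ ‖x‖ :=
  Submodule.Quotient.norm_mk_le (nullIdeal A) x

theorem aux_exists_lift (x : SeqAlg A) {ε : ℝ} (hε : 0 < ε) :
    ∃ y : ℕ →ᵇ A, mk y = x ∧ ‖y‖ < (auxNAG A).toNorm.norm x + ε :=
  Submodule.Quotient.norm_mk_lt x hε

theorem mk_eq_mk_iff {x y : ℕ →ᵇ A} :
    mk x = mk y ↔ Tendsto (fun n => x n - y n) atTop (𝓝 0) := by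
  exact (Ideal.Quotient.mk_eq_mk_iff_sub_mem (I := nullIdeal A) x y).trans
    (by rw [mem_nullIdeal]; simp)

theorem aux_eventually_lt {x : ℕ →ᵇ A} {c : ℝ} (h : (auxNAG A).toNorm.norm (mk x) < c) :
    ∀ᶠ n in atTop, ‖x n‖ < c := by
  obtain ⟨y, hy, hyc⟩ := aux_exists_lift (mk x) (sub_pos.mpr h)
  have hyc' : ‖y‖ < c := by linarith
  have h2 := mk_eq_mk_iff.mp hy
  have h3 := tendsto_norm_zero.comp h2
  filter_upwards [h3.eventually (gt_mem_nhds (sub_pos.mpr hyc'))] with n hn
  simp only [Function.comp_apply] at hn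
  have h4 : ‖x n‖ ≤ ‖y n‖ + ‖y n - x n‖ := by
    have := norm_sub_le (y n) (y n - x n)
    simpa using this
  have h5 := y.norm_coe_le_norm n
  linarith

/-- cut off the first `N` entries of a sequence -/
noncomputable def cut (N : ℕ) (x : ℕ →ᵇ A) : ℕ →ᵇ A :=
  BoundedContinuousFunction.ofNormedAddCommGroup (fun n => if n < N then 0 else x n)
    continuous_of_discreteTopology ‖x‖ (fun n => by
      split_ifs
      · simp
      · exact x.norm_coe_le_norm n)

theorem cut_apply (N : ℕ) (x : ℕ →ᵇ A) (n : ℕ) : cut N x n = if n < N then 0 else x n := rfl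

theorem mk_cut (N : ℕ) (x : ℕ →ᵇ A) : mk (cut N x) = mk x := by
  rw [mk_eq_mk_iff]
  refine Tendsto.congr' ?_ tendsto_const_nhds
  filter_upwards [eventually_ge_atTop N] with n hn
  rw [cut_apply, if_neg (by omega), sub_self]

theorem aux_norm_mk_le_of_eventually {x : ℕ →ᵇ A} {c : ℝ} (hc : 0 ≤ c)
    (h : ∀ᶠ n in atTop, ‖x n‖ ≤ c) : (auxNAG A).toNorm.norm (mk x) ≤ c := by
  obtain ⟨N, hN⟩ := eventually_atTop.mp h
  rw [← mk_cut N x]
  refine (aux_norm_mk_le _).trans ?_
  rw [BoundedContinuousFunction.norm_le hc]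
  intro n
  rw [cut_apply]
  split_ifs with hn
  · simpa using hc
  · exact hN n (by omega)

noncomputable instance instRing : Ring (SeqAlg A) := Ideal.Quotient.ring (nullIdeal A)

theorem mk_mul (x y : ℕ →ᵇ A) : mk (x * y) = mk x * mk y := rfl

theorem mk_add (x y : ℕ →ᵇ A) : mk (x + y) = mk x + mk y := rfl

theorem mk_one : mk (1 : ℕ →ᵇ A) = 1 := rfl

theorem mk_zero : mk (0 : ℕ →ᵇ A) = 0 := rfl

theorem mk_sub (x y : ℕ →ᵇ A) : mk (x - y) = mk x - mk y := rfl

theorem mk_neg (x : ℕ →ᵇ A) : mk (- x) = - mk x := rfl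

noncomputable instance instNormedRing : NormedRing (SeqAlg A) :=
  { Ideal.Quotient.ring (nullIdeal A), Submodule.Quotient.normedAddCommGroup (nullIdeal A) with
    dist_eq := (auxNAG A).dist_eq
    norm_mul_le := fun a b => by
      obtain ⟨x, rfl⟩ := mk_surjective a
      obtain ⟨y, rfl⟩ := mk_surjective b
      refine le_of_forall_pos_le_add fun ε hε => ?_
      set p := (auxNAG A).toNorm.norm (mk x) with hp
      set q := (auxNAG A).toNorm.norm (mk y) with hq
      have hp0 : 0 ≤ p := @norm_nonneg _ (auxNAG A).toSeminormedAddCommGroup.toSeminormedAddGroup _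
      have hq0 : 0 ≤ q := @norm_nonneg _ (auxNAG A).toSeminormedAddCommGroup.toSeminormedAddGroup _
      obtain ⟨δ, hδ, hδε⟩ : ∃ δ > 0, (p + δ) * (q + δ) ≤ p * q + ε := by
        have hc : Continuous fun δ : ℝ => (p + δ) * (q + δ) := by fun_prop
        have h0 := hc.tendsto 0
        simp only [add_zero] at h0
        have h1 := h0.eventually (gt_mem_nhds (lt_add_of_pos_right (p * q) hε))
        obtain ⟨r, hr, hr'⟩ := Metric.eventually_nhds_iff.mp h1
        refine ⟨r / 2, by positivity, (hr' ?_).le⟩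
        rw [Real.dist_eq, sub_zero, abs_of_pos (by positivity)]
        linarith
      refine le_trans ?_ hδε
      have hx := aux_eventually_lt (x := x) (c := p + δ) (by linarith)
      have hy := aux_eventually_lt (x := y) (c := q + δ) (by linarith)
      refine aux_norm_mk_le_of_eventually (x := x * y) (by positivity) ?_
      filter_upwards [hx, hy] with n h1 h2
      rw [BoundedContinuousFunction.coe_mul]
      exact (norm_mul_le _ _).trans (mul_le_mul h1.le h2.le (norm_nonneg _) (by positivity)) }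

theorem norm_mk_le (x : ℕ →ᵇ A) : ‖mk x‖ ≤ ‖x‖ := aux_norm_mk_le x

theorem exists_lift (x : SeqAlg A) {ε : ℝ} (hε : 0 < ε) :
    ∃ y : ℕ →ᵇ A, mk y = x ∧ ‖y‖ < ‖x‖ + ε := aux_exists_lift x hε

theorem eventually_lt {x : ℕ →ᵇ A} {c : ℝ} (h : ‖mk x‖ < c) : ∀ᶠ n in atTop, ‖x n‖ < c :=
  aux_eventually_lt h

theorem norm_mk_le_of_eventually {x : ℕ →ᵇ A} {c : ℝ} (hc : 0 ≤ c)
    (h : ∀ᶠ n in atTop, ‖x n‖ ≤ c) : ‖mk x‖ ≤ c := aux_norm_mk_le_of_eventually hc h

theorem norm_mk_le_iff {x : ℕ →ᵇ A} {c : ℝ} (hc : 0 ≤ c) :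
    ‖mk x‖ ≤ c ↔ ∀ ε > 0, ∀ᶠ n in atTop, ‖x n‖ ≤ c + ε := by
  constructor
  · intro h ε hε
    exact (eventually_lt (lt_of_le_of_lt h (lt_add_of_pos_right c hε))).mono fun n hn => hn.le
  · intro h
    exact le_of_forall_pos_le_add fun ε hε => norm_mk_le_of_eventually (by positivity) (h ε hε)

noncomputable instance instAlgebra : Algebra ℂ (SeqAlg A) :=
  Ideal.Quotient.algebra ℂ (I := nullIdeal A)

theorem mk_smul (c : ℂ) (x : ℕ →ᵇ A) : mk (c • x) = c • mk x := rfl

theorem mk_algebraMap (c : ℂ) : mk (algebraMap ℂ (ℕ →ᵇ A) c) = algebraMap ℂ (SeqAlg A) c := rfl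

noncomputable instance instNormedAlgebra : NormedAlgebra ℂ (SeqAlg A) where
  norm_smul_le := fun c a => by
    obtain ⟨x, rfl⟩ := mk_surjective a
    rw [← mk_smul]
    refine le_of_forall_pos_le_add fun ε hε => ?_
    have h1 := (norm_mk_le_iff (norm_nonneg (mk x))).mp le_rfl (ε / (‖c‖ + 1)) (by positivity)
    refine norm_mk_le_of_eventually (by positivity) ?_
    filter_upwards [h1] with n hn
    rw [BoundedContinuousFunction.coe_smul]
    refine (norm_smul_le _ _).trans ?_
    have h2 : ‖c‖ * (ε / (‖c‖ + 1)) ≤ ε := by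
      rw [mul_div_assoc', div_le_iff₀ (by positivity)]
      nlinarith [norm_nonneg c]
    nlinarith [norm_nonneg c, mul_le_mul_of_nonneg_left hn (norm_nonneg c)]

/-- The star operation on the sequence algebra. -/
noncomputable instance instStar : Star (SeqAlg A) where
  star := Quotient.map' (s₁ := (nullIdeal A).quotientRel) (s₂ := (nullIdeal A).quotientRel)
    (fun x => star x) (by
      intro x y hxy
      rw [Submodule.quotientRel_def, mem_nullIdeal] at hxy ⊢
      rw [← star_sub]
      have := hxy.star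
      simpa using this)

theorem mk_star (x : ℕ →ᵇ A) : mk (star x) = star (mk x) := rfl

noncomputable instance instStarRing : StarRing (SeqAlg A) where
  star_involutive := fun a => by
    obtain ⟨x, rfl⟩ := mk_surjective a
    rw [← mk_star, ← mk_star, star_star]
  star_mul := fun a b => by
    obtain ⟨x, rfl⟩ := mk_surjective a
    obtain ⟨y, rfl⟩ := mk_surjective b
    rw [← mk_star, ← mk_star, ← mk_mul, ← mk_mul, ← mk_star, star_mul]
  star_add := fun a b => by
    obtain ⟨x, rfl⟩ := mk_surjective a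
    obtain ⟨y, rfl⟩ := mk_surjective b
    rw [← mk_star, ← mk_star, ← mk_add, ← mk_add, ← mk_star, star_add]

noncomputable instance instStarModule : StarModule ℂ (SeqAlg A) where
  star_smul := fun c a => by
    obtain ⟨x, rfl⟩ := mk_surjective a
    rw [← mk_star, ← mk_smul, ← mk_smul, ← mk_star, star_smul]

instance instCompleteSpace : CompleteSpace (SeqAlg A) :=
  inferInstanceAs (CompleteSpace ((ℕ →ᵇ A) ⧸ nullIdeal A))

instance instCStarRing : CStarRing (SeqAlg A) where
  norm_mul_self_le := fun a => by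
    obtain ⟨x, rfl⟩ := mk_surjective a
    rw [← mk_star, ← mk_mul]
    set c := ‖mk (star x * x)‖ with hc
    have hc0 : 0 ≤ c := norm_nonneg _
    suffices h : ‖mk x‖ ≤ Real.sqrt c by
      calc ‖mk x‖ * ‖mk x‖ ≤ Real.sqrt c * Real.sqrt c :=
            mul_le_mul h h (norm_nonneg _) (Real.sqrt_nonneg _)
        _ = c := Real.mul_self_sqrt hc0
    rw [norm_mk_le_iff (Real.sqrt_nonneg _)]
    intro ε hε
    have h1 := (norm_mk_le_iff hc0).mp hc.symm.le (ε ^ 2) (by positivity)
    filter_upwards [h1] with n hn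
    rw [BoundedContinuousFunction.coe_mul] at hn
    have h2 : ‖x n‖ * ‖x n‖ ≤ c + ε ^ 2 := by
      rw [← CStarRing.norm_star_mul_self]
      exact hn
    have h3 : ‖x n‖ ^ 2 ≤ (Real.sqrt c + ε) ^ 2 := by
      have := Real.sq_sqrt hc0
      nlinarith [Real.sqrt_nonneg c, mul_nonneg (Real.sqrt_nonneg c) hε.le]
    exact le_of_sq_le_sq h3 (by positivity)

noncomputable instance instCStarAlgebra : CStarAlgebra (SeqAlg A) where
  star_add := star_add
  norm_mul_self_le := instCStarRing.norm_mul_self_le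

/-- The quotient map as a star homomorphism. -/
noncomputable def mkHom : (ℕ →ᵇ A) →⋆ₐ[ℂ] SeqAlg A where
  toFun := mk
  map_one' := rfl
  map_mul' := fun _ _ => rfl
  map_zero' := rfl
  map_add' := fun _ _ => rfl
  commutes' := fun _ => rfl
  map_star' := fun _ => rfl

@[simp] theorem mkHom_apply (x : ℕ →ᵇ A) : mkHom x = mk x := rfl

/-- The constant sequence. -/
noncomputable def constSeq (a : A) : ℕ →ᵇ A := BoundedContinuousFunction.const ℕ a

/-- The embedding of `A` into its sequence algebra as constant sequences. -/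
noncomputable def const (A : Type*) [CStarAlgebra A] : A →⋆ₐ[ℂ] SeqAlg A where
  toFun := fun a => mk (constSeq a)
  map_one' := rfl
  map_mul' := fun _ _ => rfl
  map_zero' := rfl
  map_add' := fun _ _ => rfl
  commutes' := fun _ => rfl
  map_star' := fun _ => rfl

theorem const_apply (a : A) : const A a = mk (constSeq a) := rfl

theorem norm_map_le {B : Type*} [CStarAlgebra B] (φ : A →⋆ₐ[ℂ] B) (a : A) : ‖φ a‖ ≤ ‖a‖ :=
  NonUnitalStarAlgHom.norm_apply_le φ a

/-- A star homomorphism applied to each entry of a bounded sequence. -/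
noncomputable def mapSeq {B : Type*} [CStarAlgebra B] (φ : A →⋆ₐ[ℂ] B) (x : ℕ →ᵇ A) : ℕ →ᵇ B :=
  BoundedContinuousFunction.ofNormedAddCommGroup (fun n => φ (x n))
    continuous_of_discreteTopology ‖x‖ (fun n =>
      (norm_map_le φ (x n)).trans (x.norm_coe_le_norm n))

theorem mapSeq_apply {B : Type*} [CStarAlgebra B] (φ : A →⋆ₐ[ℂ] B) (x : ℕ →ᵇ A) (n : ℕ) :
    mapSeq φ x n = φ (x n) := rfl

/-- The star homomorphism of sequence algebras induced by a star homomorphism. -/
noncomputable def map {B : Type*} [CStarAlgebra B] (φ : A →⋆ₐ[ℂ] B) :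
    SeqAlg A →⋆ₐ[ℂ] SeqAlg B where
  toFun := Quotient.map' (s₁ := (nullIdeal A).quotientRel) (s₂ := (nullIdeal B).quotientRel)
    (fun x => mapSeq φ x) (by
      intro x y hxy
      rw [Submodule.quotientRel_def, mem_nullIdeal] at hxy ⊢
      refine squeeze_zero_norm (fun n => ?_) (tendsto_norm_zero.comp hxy)
      change ‖φ (x n) - φ (y n)‖ ≤ ‖x n - y n‖
      rw [← map_sub]
      exact norm_map_le φ _)
  map_one' := by
    change mk (mapSeq φ 1) = mk 1
    congr 1; ext n; simp [mapSeq_apply]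
  map_mul' := fun a b => by
    obtain ⟨x, rfl⟩ := mk_surjective a
    obtain ⟨y, rfl⟩ := mk_surjective b
    change mk (mapSeq φ (x * y)) = mk (mapSeq φ x * mapSeq φ y)
    congr 1; ext n; simp [mapSeq_apply]
  map_zero' := by
    change mk (mapSeq φ 0) = mk 0
    congr 1; ext n; simp [mapSeq_apply]
  map_add' := fun a b => by
    obtain ⟨x, rfl⟩ := mk_surjective a
    obtain ⟨y, rfl⟩ := mk_surjective b
    change mk (mapSeq φ (x + y)) = mk (mapSeq φ x + mapSeq φ y)
    congr 1; ext n; simp [mapSeq_apply]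
  commutes' := fun r => by
    change mk (mapSeq φ (algebraMap ℂ _ r)) = mk (algebraMap ℂ _ r)
    congr 1; ext n
    simp only [mapSeq_apply, Algebra.algebraMap_eq_smul_one]
    change φ (r • (1 : A)) = r • (1 : B)
    rw [map_smul, map_one]
  map_star' := fun a => by
    obtain ⟨x, rfl⟩ := mk_surjective a
    change mk (mapSeq φ (star x)) = mk (star (mapSeq φ x))
    congr 1; ext n; exact map_star φ (x n)

theorem map_mk {B : Type*} [CStarAlgebra B] (φ : A →⋆ₐ[ℂ] B) (x : ℕ →ᵇ A) :
    map φ (mk x) = mk (mapSeq φ x) := rfl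

/-- Pull back a bounded sequence along a map of indices. -/
noncomputable def compSeq (m : ℕ → ℕ) (x : ℕ →ᵇ A) : ℕ →ᵇ A :=
  BoundedContinuousFunction.ofNormedAddCommGroup (fun n => x (m n))
    continuous_of_discreteTopology ‖x‖ (fun n => x.norm_coe_le_norm (m n))

theorem compSeq_apply (m : ℕ → ℕ) (x : ℕ →ᵇ A) (n : ℕ) : compSeq m x n = x (m n) := rfl

/-- Passing to a subsequence (more generally: reindexing along `m → ∞`). -/
noncomputable def reindex (m : ℕ → ℕ) (hm : Tendsto m atTop atTop) :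
    SeqAlg A →⋆ₐ[ℂ] SeqAlg A where
  toFun := Quotient.map' (s₁ := (nullIdeal A).quotientRel) (s₂ := (nullIdeal A).quotientRel)
    (fun x => compSeq m x) (by
      intro x y hxy
      rw [Submodule.quotientRel_def, mem_nullIdeal] at hxy ⊢
      exact hxy.comp hm)
  map_one' := rfl
  map_mul' := fun a b => by
    obtain ⟨x, rfl⟩ := mk_surjective a
    obtain ⟨y, rfl⟩ := mk_surjective b
    rfl
  map_zero' := rfl
  map_add' := fun a b => by
    obtain ⟨x, rfl⟩ := mk_surjective a
    obtain ⟨y, rfl⟩ := mk_surjective b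
    rfl
  commutes' := fun r => rfl
  map_star' := fun a => by
    obtain ⟨x, rfl⟩ := mk_surjective a
    rfl

theorem reindex_mk (m : ℕ → ℕ) (hm : Tendsto m atTop atTop) (x : ℕ →ᵇ A) :
    reindex m hm (mk x) = mk (compSeq m x) := rfl

theorem reindex_const (m : ℕ → ℕ) (hm : Tendsto m atTop atTop) (a : A) :
    reindex m hm (const A a) = const A a := rfl

end SeqAlg

/-- A point-norm continuous action of a topological group `G` on a unital C*-algebra `A`
by unital star endomorphisms (hence automorphisms). -/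
structure CAction (G A : Type*) [Group G] [TopologicalSpace G] [CStarAlgebra A] where
  toFun : G → A →⋆ₐ[ℂ] A
  one' : ∀ a, toFun 1 a = a
  mul' : ∀ g h a, toFun (g * h) a = toFun g (toFun h a)
  cont' : ∀ a, Continuous fun g => toFun g a

namespace CAction

variable {G A : Type*} [Group G] [TopologicalSpace G] [CStarAlgebra A]

instance : CoeFun (CAction G A) (fun _ => G → A →⋆ₐ[ℂ] A) := ⟨CAction.toFun⟩

theorem one_apply (α : CAction G A) (a : A) : α 1 a = a := α.one' a

theorem mul_apply (α : CAction G A) (g h : G) (a : A) : α (g * h) a = α g (α h a) :=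
  α.mul' g h a

theorem continuous_apply (α : CAction G A) (a : A) : Continuous fun g => α g a := α.cont' a

theorem inv_apply_self (α : CAction G A) (g : G) (a : A) : α g⁻¹ (α g a) = a := by
  rw [← α.mul_apply, inv_mul_cancel, α.one_apply]

theorem apply_inv_self (α : CAction G A) (g : G) (a : A) : α g (α g⁻¹ a) = a := by
  rw [← α.mul_apply, mul_inv_cancel, α.one_apply]

theorem norm_apply (α : CAction G A) (g : G) (a : A) : ‖α g a‖ = ‖a‖ := by
  refine le_antisymm (SeqAlg.norm_map_le _ _) ?_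
  have := SeqAlg.norm_map_le (α g⁻¹) (α g a)
  rwa [α.inv_apply_self] at this

/-- joint continuity of the action -/
theorem continuous_uncurry (α : CAction G A) : Continuous fun p : G × A => α p.1 p.2 := by
  rw [continuous_iff_continuousAt]
  rintro ⟨g, a⟩
  rw [ContinuousAt, tendsto_iff_norm_sub_tendsto_zero]
  have h1 : Tendsto (fun p : G × A => ‖p.2 - a‖ + ‖α p.1 a - α g a‖) (𝓝 (g, a)) (𝓝 0) := by
    have e1 : Tendsto (fun p : G × A => ‖p.2 - a‖) (𝓝 (g, a)) (𝓝 0) := by
      have : Continuous fun p : G × A => ‖p.2 - a‖ := by fun_prop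
      simpa using this.tendsto (g, a)
    have e2 : Tendsto (fun p : G × A => ‖α p.1 a - α g a‖) (𝓝 (g, a)) (𝓝 0) := by
      have : Continuous fun p : G × A => ‖α p.1 a - α g a‖ :=
        (((α.continuous_apply a).comp continuous_fst).sub continuous_const).norm
      simpa using this.tendsto (g, a)
    simpa using e1.add e2
  refine squeeze_zero (fun _ => norm_nonneg _) (fun p => ?_) h1
  calc ‖α p.1 p.2 - α g a‖ = ‖α p.1 (p.2 - a) + (α p.1 a - α g a)‖ := by
        rw [map_sub]; congr 1; abel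
    _ ≤ ‖α p.1 (p.2 - a)‖ + ‖α p.1 a - α g a‖ := norm_add_le _ _
    _ = _ := by rw [α.norm_apply]

end CAction

section Rokhlin

variable {G A : Type*} [Group G] [TopologicalSpace G] [IsTopologicalGroup G] [CStarAlgebra A]

/-- The induced action on the sequence algebra (not necessarily continuous). -/
noncomputable def act (α : CAction G A) (g : G) : SeqAlg A →⋆ₐ[ℂ] SeqAlg A := SeqAlg.map (α g)

omit [IsTopologicalGroup G] in
theorem act_mk (α : CAction G A) (g : G) (x : ℕ →ᵇ A) :
    act α g (SeqAlg.mk x) = SeqAlg.mk (SeqAlg.mapSeq (α g) x) := rfl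

/-- Left translation of functions, `(Lt g f) h = f (g⁻¹ h)`. -/
noncomputable def Lt (g : G) (f : C(G, ℂ)) : C(G, ℂ) := ⟨fun h => f (g⁻¹ * h), by fun_prop⟩

@[simp] theorem Lt_apply (g : G) (f : C(G, ℂ)) (h : G) : Lt g f h = f (g⁻¹ * h) := rfl

/-- The algebra `A_{∞,α} ∩ A'` as a subset of `A_∞`: the elements which commute with the constant
sequences and on which the induced action is norm-continuous. -/
def centralCont (α : CAction G A) : Set (SeqAlg A) :=
  {x | (∀ a : A, Commute x (SeqAlg.const A a)) ∧ Continuous fun g => act α g x}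

/-- Positive elements of a C*-algebra: those of the form `z* z`. -/
def IsPos {M : Type*} [Mul M] [Star M] (x : M) : Prop := ∃ z : M, x = star z * z

variable [CompactSpace G]

/-- The Rokhlin property: there is a unital equivariant star homomorphism
`C(G) → A_{∞,α} ∩ A'`. -/
def HasRokhlinProperty (α : CAction G A) : Prop :=
  ∃ ψ : C(G, ℂ) →⋆ₐ[ℂ] SeqAlg A,
    (∀ f, ψ f ∈ centralCont α) ∧ ∀ g f, act α g (ψ f) = ψ (Lt g f)

/-- An equivariant (completely) positive contractive order zero map `C(G) → A_{∞,α} ∩ A'`.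
(As `C(G)` is commutative, positive maps on it are completely positive.) -/
structure IsTower (α : CAction G A) (φ : C(G, ℂ) →ₗ[ℂ] SeqAlg A) : Prop where
  positive : ∀ f, IsPos f → IsPos (φ f)
  contractive : ∀ f, ‖φ f‖ ≤ ‖f‖
  orderZero : ∀ f g, IsPos f → IsPos g → f * g = 0 → φ f * φ g = 0
  mem : ∀ f, φ f ∈ centralCont α
  equivariant : ∀ g f, act α g (φ f) = φ (Lt g f)

/-- Rokhlin dimension with commuting towers at most `d`. -/
def RokhlinDimCommLE (α : CAction G A) (d : ℕ) : Prop :=
  ∃ φ : Fin (d + 1) → C(G, ℂ) →ₗ[ℂ] SeqAlg A,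
    (∀ j, IsTower α (φ j)) ∧ (∀ i j, i ≠ j → ∀ f g, Commute (φ i f) (φ j g)) ∧
    ∑ j, φ j 1 = 1

/-- `A` is (isomorphic to) the Cuntz algebra `O_2`: a nonzero unital C*-algebra generated by two
isometries whose range projections sum to one. -/
def IsCuntzTwo (A : Type*) [CStarAlgebra A] : Prop :=
  Nontrivial A ∧ ∃ s₁ s₂ : A, star s₁ * s₁ = 1 ∧ star s₂ * s₂ = 1 ∧
    s₁ * star s₁ + s₂ * star s₂ = 1 ∧
    (StarAlgebra.adjoin ℂ ({s₁, s₂} : Set A)).topologicalClosure = ⊤

end Rokhlin

end Pool.Agent.RokO2
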