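import Pool.Agent.RokO2.Defs

/-!
# Baire category and the diagonal argument in the sequence algebra
-/

open scoped BoundedContinuousFunction
open Filter Topology

namespace Pool.Agent.RokO2

section DIAG

variable {G A : Type*} [Group G] [TopologicalSpace G] [IsTopologicalGroup G] [CompactSpace G]
  [CStarAlgebra A]

/-- Baire category: norm continuity in the quotient gives asymptotic equicontinuity. -/
theorem baire_equicontinuous [T2Space G] (α : CAction G A) (x : ℕ →ᵇ A)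
    (hx : Continuous fun g => act α g (SeqAlg.mk x)) {ε : ℝ} (hε : 0 < ε) :
    ∃ U ∈ 𝓝 (1 : G), ∃ N : ℕ, ∀ n ≥ N, ∀ g ∈ U, ‖α g (x n) - x n‖ ≤ ε := by
  set V : Set G := {g | ‖act α g (SeqAlg.mk x) - SeqAlg.mk x‖ < ε / 2} with hV
  have hVo : IsOpen V := isOpen_lt ((hx.sub continuous_const).norm) continuous_const
  have hV1 : (1 : G) ∈ V := by
    change ‖act α 1 (SeqAlg.mk x) - SeqAlg.mk x‖ < ε / 2
    rw [act_mk]
    have : SeqAlg.mapSeq (α 1) x = x := by
      ext n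
      rw [SeqAlg.mapSeq_apply, α.one_apply]
    rw [this, sub_self, norm_zero]
    positivity
  set E : Option ℕ → Set G := fun o => match o with
    | none => Vᶜ
    | some N => {g | ∀ n ≥ N, ‖α g (x n) - x n‖ ≤ ε / 2} with hE
  have hEc : ∀ o, IsClosed (E o) := by
    rintro (_ | N)
    · exact hVo.isClosed_compl
    · have : E (some N) = ⋂ n, ⋂ (_ : n ≥ N), {g | ‖α g (x n) - x n‖ ≤ ε / 2} := by
        ext g
        simp [hE]
      rw [this]
      refine isClosed_iInter fun n => isClosed_iInter fun _ => ?_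
      exact isClosed_le (((α.continuous_apply (x n)).sub continuous_const).norm) continuous_const
  have hU : ⋃ o, E o = Set.univ := by
    rw [Set.eq_univ_iff_forall]
    intro g
    by_cases hg : g ∈ V
    · have : ‖SeqAlg.mk (SeqAlg.mapSeq (α g) x - x)‖ < ε / 2 := by
        rw [SeqAlg.mk_sub, ← act_mk]
        exact hg
      obtain ⟨N, hN⟩ := eventually_atTop.1 (SeqAlg.eventually_lt this)
      exact Set.mem_iUnion.2 ⟨some N, fun n hn => (hN n hn).le⟩
    · exact Set.mem_iUnion.2 ⟨none, hg⟩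
  have hd := dense_iUnion_interior_of_closed hEc hU
  obtain ⟨g0, hg0V, hg0⟩ := hd.inter_open_nonempty V hVo ⟨1, hV1⟩
  obtain ⟨o, ho⟩ := Set.mem_iUnion.1 hg0
  rcases o with _ | N
  · exact absurd hg0V (interior_subset ho)
  · refine ⟨{g | g0 * g ∈ interior (E (some N))}, ?_, N, ?_⟩
    · have hc : Continuous fun g => g0 * g := by fun_prop
      apply hc.continuousAt.preimage_mem_nhds
      rw [mul_one]
      exact isOpen_interior.mem_nhds ho
    · intro n hn g hg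
      have h1 : ‖α (g0 * g) (x n) - x n‖ ≤ ε / 2 := interior_subset hg n hn
      have h2 : ‖α g0 (x n) - x n‖ ≤ ε / 2 := interior_subset ho n hn
      calc ‖α g (x n) - x n‖ = ‖α g0 (α g (x n) - x n)‖ := (α.norm_apply _ _).symm
        _ = ‖(α (g0 * g) (x n) - x n) - (α g0 (x n) - x n)‖ := by
            rw [map_sub, ← α.mul_apply]
            congr 1
            abel
        _ ≤ _ := norm_sub_le _ _
        _ ≤ ε := by linarith

/-- Uniform version of an estimate in the quotient. -/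
theorem eventually_unif [T2Space G] (α : CAction G A) (x y : ℕ →ᵇ A)
    (hx : Continuous fun g => act α g (SeqAlg.mk x)) (c : G → ℝ) (hc : Continuous c)
    (h : ∀ g, ‖act α g (SeqAlg.mk x) - SeqAlg.mk y‖ ≤ c g) {ε : ℝ} (hε : 0 < ε) :
    ∀ᶠ n in atTop, ∀ g, ‖α g (x n) - y n‖ ≤ c g + ε := by
  obtain ⟨U, hU, N, hN⟩ := baire_equicontinuous α x hx (show (0 : ℝ) < ε / 3 by positivity)
  have hW : ∀ g0 : G, {g | g0⁻¹ * g ∈ U ∧ c g0 < c g + ε / 3} ∈ 𝓝 g0 := by
    intro g0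
    refine Filter.inter_mem ?_ ?_
    · have hcont : Continuous fun g => g0⁻¹ * g := by fun_prop
      apply hcont.continuousAt.preimage_mem_nhds
      rw [inv_mul_cancel]
      exact hU
    · have hcont : Continuous fun g => c g + ε / 3 := by fun_prop
      exact hcont.continuousAt.eventually (lt_mem_nhds (by linarith))
  obtain ⟨t, ht⟩ := CompactSpace.elim_nhds_subcover _ hW
  have h1 : ∀ᶠ n in atTop, ∀ g0 ∈ t, ‖α g0 (x n) - y n‖ ≤ c g0 + ε / 3 := by
    rw [Filter.eventually_all_finset]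
    intro g0 _
    have h2 : ‖SeqAlg.mk (SeqAlg.mapSeq (α g0) x - y)‖ ≤ c g0 := by
      rw [SeqAlg.mk_sub, ← act_mk]
      exact h g0
    exact (SeqAlg.norm_mk_le_iff ((norm_nonneg _).trans h2)).1 h2 (ε / 3) (by positivity)
  filter_upwards [h1, eventually_ge_atTop N] with n hn hnN g
  have hg : g ∈ ⋃ g0 ∈ t, {g | g0⁻¹ * g ∈ U ∧ c g0 < c g + ε / 3} := by
    rw [ht]
    trivial
  simp only [Set.mem_iUnion] at hg
  obtain ⟨g0, hg0, hg1, hg2⟩ := hg
  have h3 := hN n hnN _ hg1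
  have h4 := hn g0 hg0
  calc ‖α g (x n) - y n‖ = ‖α g0 (α (g0⁻¹ * g) (x n) - x n) + (α g0 (x n) - y n)‖ := by
        rw [map_sub, ← α.mul_apply, mul_inv_cancel_left]
        congr 1
        abel
    _ ≤ ‖α g0 (α (g0⁻¹ * g) (x n) - x n)‖ + ‖α g0 (x n) - y n‖ := norm_add_le _ _
    _ ≤ ε / 3 + (c g0 + ε / 3) := by
        rw [α.norm_apply]
        exact add_le_add h3 h4
    _ ≤ c g + ε := by linarith

omit [CompactSpace G] in
theorem continuous_Lt (f : C(G, ℂ)) : Continuous fun g => Lt g f := by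
  let F : C(G × G, ℂ) := ⟨fun p => f (p.1⁻¹ * p.2), by fun_prop⟩
  have : (fun g => Lt g f) = fun g => F.curry g := by
    ext g h
    rfl
  rw [this]
  exact F.curry.continuous

theorem norm_Lt_le (g : G) (f : C(G, ℂ)) : ‖Lt g f‖ ≤ ‖f‖ := by
  rw [ContinuousMap.norm_le _ (norm_nonneg _)]
  intro h
  exact f.norm_coe_le_norm _

omit [CompactSpace G] in
theorem Lt_sub (g : G) (f f' : C(G, ℂ)) : Lt g (f - f') = Lt g f - Lt g f' := by
  ext h
  simp

/-- nearest neighbours in a dense sequence -/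
theorem exists_nearest {X : Type*} [PseudoMetricSpace X] (u : ℕ → X) (hu : DenseRange u) :
    ∃ p : ℕ → X → X, (∀ n x, ∃ i ≤ n, p n x = u i) ∧ (∀ n x, dist (p n x) x ≤ dist (u 0) x) ∧
      ∀ x, Tendsto (fun n => p n x) atTop (𝓝 x) := by
  have h : ∀ (n : ℕ) (x : X), ∃ i ∈ Finset.range (n + 1), ∀ j ∈ Finset.range (n + 1),
      dist (u i) x ≤ dist (u j) x := fun n x =>
    Finset.exists_min_image _ _ ⟨0, by simp⟩
  choose i hi hi' using h
  refine ⟨fun n x => u (i n x), fun n x => ⟨i n x, ?_, rfl⟩, fun n x => hi' n x 0 (by simp), ?_⟩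
  · have := Finset.mem_range.1 (hi n x)
    omega
  · intro x
    rw [Metric.tendsto_atTop]
    intro ε hε
    obtain ⟨k, hk⟩ := hu.exists_dist_lt x hε
    refine ⟨k, fun n hn => lt_of_le_of_lt (hi' n x k (Finset.mem_range.2 (by omega))) ?_⟩
    rwa [dist_comm]

/-- quotient classes of close sequences agree -/
theorem mk_eq_of_le {x y : ℕ →ᵇ A} {r : ℕ → ℝ} (h : ∀ n, ‖x n - y n‖ ≤ r n)
    (hr : Tendsto r atTop (𝓝 0)) : SeqAlg.mk x = SeqAlg.mk y := by
  rw [SeqAlg.mk_eq_mk_iff]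
  exact squeeze_zero_norm h hr

theorem mk_eq_of_eventually_le {x y : ℕ →ᵇ A} {r : ℕ → ℝ}
    (h : ∀ᶠ n in atTop, ‖x n - y n‖ ≤ r n)
    (hr : Tendsto r atTop (𝓝 0)) : SeqAlg.mk x = SeqAlg.mk y := by
  rw [SeqAlg.mk_eq_mk_iff]
  exact squeeze_zero_norm' h hr

/-- the conditions at stage `n` -/
structure Good (α : CAction G A) (C : ℝ) (Hn : ℝ) (H' : ℕ →ᵇ A) (z : ℕ → (ℕ →ᵇ A))
    (S : Finset C(G, ℂ)) (T : Finset A) (D : Finset ℂ) (I : Finset ℕ)
    (L : C(G, ℂ) → (ℕ →ᵇ A)) (e : ℝ) (m : ℕ) : Prop where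
  bound : ∀ f ∈ S, ‖L f m‖ ≤ C * ‖f‖ + e
  add : ∀ f ∈ S, ∀ f' ∈ S, ∀ f'' ∈ S, ‖L f m + L f' m - L f'' m‖ ≤ C * ‖f + f' - f''‖ + e
  smul : ∀ c ∈ D, ∀ f ∈ S, ∀ f' ∈ S, ‖c • L f m - L f' m‖ ≤ C * ‖c • f - f'‖ + e
  star : ∀ f ∈ S, ∀ f' ∈ S, ‖star (L f m) - L f' m‖ ≤ C * ‖star f - f'‖ + e
  mul : ∀ f ∈ S, ∀ f' ∈ S, ∀ f'' ∈ S,
    ‖L f m * L f' m - H' m * L f'' m‖ ≤ e + Hn * (C * ‖f * f' - f''‖) + e
  equi : ∀ f ∈ S, ∀ f' ∈ S, ∀ g, ‖α g (L f m) - L f' m‖ ≤ C * ‖Lt g f - f'‖ + e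
  comm : ∀ f ∈ S, ∀ a ∈ T, ‖L f m * a - a * L f m‖ ≤ e + e
  commz : ∀ f ∈ S, ∀ i ∈ I, ‖L f m * z i m - z i m * L f m‖ ≤ 0 + e

theorem eventually_good [T2Space G] (α : CAction G A) {C : ℝ} {H : SeqAlg A}
    {H' : ℕ →ᵇ A} (hH : SeqAlg.mk H' = H) {z : ℕ → SeqAlg A} {z' : ℕ → (ℕ →ᵇ A)}
    (hz : ∀ i, SeqAlg.mk (z' i) = z i) (S : Finset C(G, ℂ)) (T : Finset A) (D : Finset ℂ)
    (I : Finset ℕ) {φ : C(G, ℂ) →ₗ[ℂ] SeqAlg A} {L : C(G, ℂ) → (ℕ →ᵇ A)}
    (hL : ∀ f, SeqAlg.mk (L f) = φ f) {e : ℝ} (he : 0 < e)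
    (h1 : ∀ f, ‖φ f‖ ≤ C * ‖f‖) (h2 : ∀ f, φ (star f) = star (φ f)) (h3 : φ 1 = H)
    (h4 : ∀ g f, act α g (φ f) = φ (Lt g f)) (h5 : ∀ i f, Commute (φ f) (z i))
    (h6 : ∀ f ∈ S, ∀ f' ∈ S, ‖φ f * φ f' - φ 1 * φ (f * f')‖ ≤ e)
    (h7 : ∀ f ∈ S, ∀ a ∈ T, ‖φ f * SeqAlg.const A a - SeqAlg.const A a * φ f‖ ≤ e) :
    ∀ᶠ m in atTop, Good α C ‖H‖ H' z' S T D I L e m := by
  have ev : ∀ (x : ℕ →ᵇ A) (c : ℝ), ‖SeqAlg.mk x‖ ≤ c → ∀ᶠ m in atTop, ‖x m‖ ≤ c + e :=
    fun x c hx => (SeqAlg.norm_mk_le_iff ((norm_nonneg _).trans hx)).1 hx e he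
  have b1 : ∀ᶠ m in atTop, ∀ f ∈ S, ‖L f m‖ ≤ C * ‖f‖ + e := by
    rw [Filter.eventually_all_finset]
    intro f _
    exact ev (L f) _ (by rw [hL]; exact h1 f)
  have b2 : ∀ᶠ m in atTop, ∀ f ∈ S, ∀ f' ∈ S, ∀ f'' ∈ S,
      ‖L f m + L f' m - L f'' m‖ ≤ C * ‖f + f' - f''‖ + e := by
    simp only [Filter.eventually_all_finset]
    intro f _ f' _ f'' _
    refine ev (L f + L f' - L f'') _ ?_
    rw [SeqAlg.mk_sub, SeqAlg.mk_add, hL, hL, hL, ← map_add, ← map_sub]
    exact h1 _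
  have b3 : ∀ᶠ m in atTop, ∀ c ∈ D, ∀ f ∈ S, ∀ f' ∈ S,
      ‖c • L f m - L f' m‖ ≤ C * ‖c • f - f'‖ + e := by
    simp only [Filter.eventually_all_finset]
    intro c _ f _ f' _
    refine ev (c • L f - L f') _ ?_
    rw [SeqAlg.mk_sub, SeqAlg.mk_smul, hL, hL, ← map_smul, ← map_sub]
    exact h1 _
  have b4 : ∀ᶠ m in atTop, ∀ f ∈ S, ∀ f' ∈ S,
      ‖star (L f m) - L f' m‖ ≤ C * ‖star f - f'‖ + e := by
    simp only [Filter.eventually_all_finset]
    intro f _ f' _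
    refine ev (star (L f) - L f') _ ?_
    rw [SeqAlg.mk_sub, SeqAlg.mk_star, hL, hL, ← h2, ← map_sub]
    exact h1 _
  have b5 : ∀ᶠ m in atTop, ∀ f ∈ S, ∀ f' ∈ S, ∀ f'' ∈ S,
      ‖L f m * L f' m - H' m * L f'' m‖ ≤ e + ‖H‖ * (C * ‖f * f' - f''‖) + e := by
    simp only [Filter.eventually_all_finset]
    intro f hf f' hf' f'' _
    refine ev (L f * L f' - H' * L f'') _ ?_
    rw [SeqAlg.mk_sub, SeqAlg.mk_mul, SeqAlg.mk_mul, hL, hL, hL, hH]
    have e1 : φ f * φ f' - H * φ f'' = (φ f * φ f' - φ 1 * φ (f * f')) +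
        H * φ (f * f' - f'') := by
      rw [map_sub, h3, mul_sub]
      abel
    rw [e1]
    refine (norm_add_le _ _).trans (add_le_add (h6 f hf f' hf') ((norm_mul_le _ _).trans ?_))
    exact mul_le_mul_of_nonneg_left (h1 _) (norm_nonneg _)
  have b6 : ∀ᶠ m in atTop, ∀ f ∈ S, ∀ f' ∈ S, ∀ g,
      ‖α g (L f m) - L f' m‖ ≤ C * ‖Lt g f - f'‖ + e := by
    simp only [Filter.eventually_all_finset]
    intro f _ f' _
    refine eventually_unif α (L f) (L f') ?_ (fun g => C * ‖Lt g f - f'‖) ?_ ?_ he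
    · have hcont : Continuous fun f => φ f := by
        have := (LinearMap.mkContinuous φ C h1).continuous
        exact this
      have : (fun g => act α g (SeqAlg.mk (L f))) = fun g => φ (Lt g f) := by
        ext g
        rw [hL, h4]
      rw [this]
      exact hcont.comp (continuous_Lt f)
    · exact continuous_const.mul ((continuous_Lt f).sub continuous_const).norm
    · intro g
      rw [hL, hL, h4, ← map_sub]
      exact h1 _
  have b7 : ∀ᶠ m in atTop, ∀ f ∈ S, ∀ a ∈ T, ‖L f m * a - a * L f m‖ ≤ e + e := by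
    simp only [Filter.eventually_all_finset]
    intro f hf a ha
    have h8 := h7 f hf a ha
    rw [← hL] at h8
    exact ev (L f * BoundedContinuousFunction.const ℕ a - BoundedContinuousFunction.const ℕ a * L f)
      _ h8
  have b8 : ∀ᶠ m in atTop, ∀ f ∈ S, ∀ i ∈ I,
      ‖L f m * z' i m - z' i m * L f m‖ ≤ 0 + e := by
    simp only [Filter.eventually_all_finset]
    intro f _ i _
    refine ev (L f * z' i - z' i * L f) _ ?_
    rw [SeqAlg.mk_sub, SeqAlg.mk_mul, SeqAlg.mk_mul, hL, hz, (h5 i f).eq, sub_self, norm_zero]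
  filter_upwards [b1, b2, b3, b4, b5, b6, b7, b8] with m c1 c2 c3 c4 c5 c6 c7 c8
  exact ⟨c1, c2, c3, c4, c5, c6, c7, c8⟩

theorem diag [T2Space G] [SecondCountableTopology G] [TopologicalSpace.SeparableSpace A]
    (α : CAction G A) (C : ℝ) (H : SeqAlg A) (z : ℕ → SeqAlg A)
    (h : ∀ (F : Finset C(G, ℂ)) (K : Finset A) (ε : ℝ), 0 < ε →
      ∃ φ' : C(G, ℂ) →ₗ[ℂ] SeqAlg A, (∀ f, ‖φ' f‖ ≤ C * ‖f‖) ∧
        (∀ f, φ' (star f) = star (φ' f)) ∧ φ' 1 = H ∧
        (∀ g f, act α g (φ' f) = φ' (Lt g f)) ∧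
        (∀ i f, Commute (φ' f) (z i)) ∧
        (∀ f ∈ F, ∀ f' ∈ F, ‖φ' f * φ' f' - φ' 1 * φ' (f * f')‖ ≤ ε) ∧
        (∀ f ∈ F, ∀ a ∈ K, ‖φ' f * SeqAlg.const A a - SeqAlg.const A a * φ' f‖ ≤ ε)) :
    ∃ (θ : SeqAlg A →⋆ₐ[ℂ] SeqAlg A) (Φ : C(G, ℂ) →ₗ[ℂ] SeqAlg A),
      (∀ a, θ (SeqAlg.const A a) = SeqAlg.const A a) ∧
      (∀ g x, act α g (θ x) = θ (act α g x)) ∧
      (∀ f, ‖Φ f‖ ≤ C * ‖f‖) ∧ (∀ f, Φ (star f) = star (Φ f)) ∧ Φ 1 = θ H ∧
      (∀ g f, act α g (Φ f) = Φ (Lt g f)) ∧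
      (∀ i f, Commute (Φ f) (θ (z i))) ∧
      (∀ f f', Φ f * Φ f' = Φ 1 * Φ (f * f')) ∧
      (∀ f a, Commute (Φ f) (SeqAlg.const A a)) := by
  classical
  have hC : 0 ≤ C := by
    obtain ⟨φ', h1, -⟩ := h ∅ ∅ 1 one_pos
    have := (norm_nonneg _).trans (h1 1)
    rwa [norm_one, mul_one] at this
  obtain ⟨H', hH⟩ := SeqAlg.mk_surjective H
  choose z' hz using fun i => SeqAlg.mk_surjective (z i)
  let fs : ℕ → C(G, ℂ) := fun n => Nat.casesOn n 1 (fun k => TopologicalSpace.denseSeq C(G, ℂ) k)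
  have hfs : DenseRange fs := by
    refine (TopologicalSpace.denseRange_denseSeq C(G, ℂ)).mono ?_
    rintro _ ⟨k, rfl⟩
    exact ⟨k + 1, rfl⟩
  obtain ⟨p, hp1, hp2, hp3⟩ := exists_nearest fs hfs
  obtain ⟨pa, pa1, -, pa3⟩ := exists_nearest (TopologicalSpace.denseSeq A)
    (TopologicalSpace.denseRange_denseSeq A)
  obtain ⟨pc, pc1, -, pc3⟩ := exists_nearest (TopologicalSpace.denseSeq ℂ)
    (TopologicalSpace.denseRange_denseSeq ℂ)
  let S : ℕ → Finset C(G, ℂ) := fun n => (Finset.range (n + 1)).image fs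
  let T : ℕ → Finset A := fun n => (Finset.range (n + 1)).image (TopologicalSpace.denseSeq A)
  let D : ℕ → Finset ℂ := fun n => (Finset.range (n + 1)).image (TopologicalSpace.denseSeq ℂ)
  have pS : ∀ n f, p n f ∈ S n := by
    intro n f
    obtain ⟨i, hi, hi'⟩ := hp1 n f
    exact Finset.mem_image.2 ⟨i, Finset.mem_range.2 (by omega), hi'.symm⟩
  have pT : ∀ n a, pa n a ∈ T n := by
    intro n a
    obtain ⟨i, hi, hi'⟩ := pa1 n a
    exact Finset.mem_image.2 ⟨i, Finset.mem_range.2 (by omega), hi'.symm⟩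
  have pD : ∀ n c, pc n c ∈ D n := by
    intro n c
    obtain ⟨i, hi, hi'⟩ := pc1 n c
    exact Finset.mem_image.2 ⟨i, Finset.mem_range.2 (by omega), hi'.symm⟩
  have p1 : ∀ n, p n 1 = 1 := by
    intro n
    have := hp2 n 1
    have h0 : dist (fs 0) 1 = 0 := dist_self _
    rw [h0] at this
    exact dist_le_zero.1 this
  let e : ℕ → ℝ := fun n => 1 / ((n : ℝ) + 1)
  have he : ∀ n, 0 < e n := fun n => Nat.one_div_pos_of_nat
  have he1 : ∀ n, e n ≤ 1 := by
    intro n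
    have : (1 : ℝ) ≤ (n : ℝ) + 1 := by
      have := Nat.cast_nonneg (α := ℝ) n
      linarith
    exact (div_le_one (by linarith)).2 this
  have he0 : Tendsto e atTop (𝓝 0) := tendsto_one_div_add_atTop_nhds_zero_nat
  choose φ h1 h2 h3 h4 h5 h6 h7 using fun n => h (S n) (T n) (e n) (he n)
  have hlift : ∀ n f, ∃ x : ℕ →ᵇ A, SeqAlg.mk x = φ n f ∧ (f = 1 → x = H') := by
    intro n f
    by_cases hf : f = 1
    · subst hf
      exact ⟨H', hH.trans (h3 n).symm, fun _ => rfl⟩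
    · obtain ⟨x, hx⟩ := SeqAlg.mk_surjective (φ n f)
      exact ⟨x, hx, fun h => absurd h hf⟩
  choose L hL hL1 using hlift
  have hgood : ∀ n, ∃ m ≥ n, Good α C ‖H‖ H' z' (S n) (T n) (D n) (Finset.range (n + 1)) (L n)
      (e n) m := by
    intro n
    have := eventually_good α hH hz (S n) (T n) (D n) (Finset.range (n + 1)) (hL n) (he n)
      (h1 n) (h2 n) (h3 n) (h4 n) (h5 n) (h6 n) (h7 n)
    obtain ⟨m, hm1, hm2⟩ := (this.and (eventually_ge_atTop n)).exists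
    exact ⟨m, hm2, hm1⟩
  choose m hm hG using hgood
  have hmt : Tendsto m atTop atTop := tendsto_atTop_mono hm tendsto_id
  -- the values
  let E : ℕ → C(G, ℂ) → A := fun n f => L n (p n f) (m n)
  have hEdef : ∀ n f, E n f = L n (p n f) (m n) := fun _ _ => rfl
  have hE0 : ∀ n f, ‖E n f‖ ≤ C * ‖p n f‖ + e n := fun n f => (hG n).bound _ (pS n f)
  let Bd : C(G, ℂ) → ℝ := fun f => C * (‖f‖ + ‖1 - f‖) + 1
  have hE : ∀ n f, ‖E n f‖ ≤ Bd f := by
    intro n f
    refine (hE0 n f).trans ?_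
    have h8 : ‖p n f‖ ≤ ‖f‖ + ‖1 - f‖ := by
      have h9 := hp2 n f
      rw [dist_eq_norm, dist_eq_norm] at h9
      have h10 : ‖p n f‖ ≤ ‖f‖ + ‖p n f - f‖ := by
        have := norm_add_le f (p n f - f)
        rwa [add_sub_cancel] at this
      exact h10.trans (add_le_add le_rfl h9)
    exact add_le_add (mul_le_mul_of_nonneg_left h8 hC) (he1 n)
  let Q : C(G, ℂ) → (ℕ →ᵇ A) := fun f => BoundedContinuousFunction.ofNormedAddCommGroup
    (fun n => E n f) continuous_of_discreteTopology (Bd f) (fun n => hE n f)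
  have hQ : ∀ f n, Q f n = E n f := fun _ _ => rfl
  have tend : ∀ x : ℕ → C(G, ℂ), Tendsto x atTop (𝓝 0) →
      Tendsto (fun n => C * ‖x n‖ + e n) atTop (𝓝 0) := by
    intro x hx
    have := ((tendsto_norm_zero.comp hx).const_mul C).add he0
    simpa using this
  let Φ : C(G, ℂ) →ₗ[ℂ] SeqAlg A :=
    { toFun := fun f => SeqAlg.mk (Q f)
      map_add' := by
        intro f f'
        rw [← SeqAlg.mk_add]
        refine mk_eq_of_le (r := fun n => C * ‖p n f + p n f' - p n (f + f')‖ + e n) ?_ ?_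
        · intro n
          rw [BoundedContinuousFunction.coe_add, Pi.add_apply, hQ, hQ, hQ, norm_sub_rev]
          exact (hG n).add _ (pS n f) _ (pS n f') _ (pS n _)
        · apply tend
          have := ((hp3 f).add (hp3 f')).sub (hp3 (f + f'))
          rwa [sub_self] at this
      map_smul' := by
        intro c f
        rw [RingHom.id_apply, ← SeqAlg.mk_smul]
        refine mk_eq_of_le (r := fun n => ‖c - pc n c‖ * Bd f +
          (C * ‖pc n c • p n f - p n (c • f)‖ + e n)) ?_ ?_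
        · intro n
          change ‖E n (c • f) - c • E n f‖ ≤ _
          rw [norm_sub_rev]
          have e1 : c • E n f - E n (c • f) = (c - pc n c) • E n f +
              (pc n c • E n f - E n (c • f)) := by
            rw [sub_smul]
            abel
          rw [e1]
          refine (norm_add_le _ _).trans (add_le_add ?_
            ((hG n).smul _ (pD n c) _ (pS n f) _ (pS n _)))
          rw [norm_smul]
          exact mul_le_mul_of_nonneg_left (hE n f) (norm_nonneg _)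
        · have t1 : Tendsto (fun n => ‖c - pc n c‖ * Bd f) atTop (𝓝 0) := by
            have := ((tendsto_const_nhds (x := c)).sub (pc3 c))
            rw [sub_self] at this
            have := (tendsto_norm_zero.comp this).mul_const (Bd f)
            rw [zero_mul] at this
            exact this
          have t2 : Tendsto (fun n => C * ‖pc n c • p n f - p n (c • f)‖ + e n) atTop (𝓝 0) := by
            apply tend
            have := ((pc3 c).smul (hp3 f)).sub (hp3 (c • f))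
            rwa [sub_self] at this
          have := t1.add t2
          rwa [add_zero] at this }
  have hΦ : ∀ f, Φ f = SeqAlg.mk (Q f) := fun _ => rfl
  have hQ1 : Q 1 = SeqAlg.compSeq m H' := by
    ext n
    rw [hQ, hEdef, SeqAlg.compSeq_apply, hL1 n (p n 1) (p1 n)]
  have hΦ1 : Φ 1 = SeqAlg.reindex m hmt H := by
    rw [hΦ, hQ1, ← hH, SeqAlg.reindex_mk]
  refine ⟨SeqAlg.reindex m hmt, Φ, SeqAlg.reindex_const m hmt, ?_, ?_, ?_, hΦ1, ?_, ?_, ?_, ?_⟩
  · intro g x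
    obtain ⟨y, rfl⟩ := SeqAlg.mk_surjective x
    rfl
  · intro f
    rw [hΦ, SeqAlg.norm_mk_le_iff (mul_nonneg hC (norm_nonneg _))]
    intro ε hε
    have t1 : Tendsto (fun n => C * ‖p n f‖ + e n) atTop (𝓝 (C * ‖f‖ + 0)) :=
      ((hp3 f).norm.const_mul C).add he0
    rw [add_zero] at t1
    filter_upwards [t1.eventually (gt_mem_nhds (lt_add_of_pos_right _ hε))] with n hn
    exact (hE0 n f).trans hn.le
  · intro f
    rw [hΦ, hΦ, ← SeqAlg.mk_star]
    refine mk_eq_of_le (r := fun n => C * ‖star (p n f) - p n (star f)‖ + e n) ?_ ?_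
    · intro n
      rw [BoundedContinuousFunction.star_apply, hQ, hQ, norm_sub_rev]
      exact (hG n).star _ (pS n f) _ (pS n _)
    · apply tend
      have := (hp3 f).star.sub (hp3 (star f))
      rwa [sub_self] at this
  · intro g f
    rw [hΦ, hΦ, act_mk]
    refine mk_eq_of_le (r := fun n => C * ‖Lt g (p n f) - p n (Lt g f)‖ + e n) ?_ ?_
    · intro n
      rw [SeqAlg.mapSeq_apply, hQ, hQ]
      exact (hG n).equi _ (pS n f) _ (pS n _) g
    · apply tend
      have t1 : Tendsto (fun n => Lt g (p n f)) atTop (𝓝 (Lt g f)) := by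
        rw [tendsto_iff_norm_sub_tendsto_zero]
        refine squeeze_zero (fun _ => norm_nonneg _) (fun n => ?_)
          (tendsto_iff_norm_sub_tendsto_zero.1 (hp3 f))
        rw [← Lt_sub]
        exact norm_Lt_le _ _
      have := t1.sub (hp3 (Lt g f))
      rwa [sub_self] at this
  · intro i f
    rw [hΦ, ← hz, SeqAlg.reindex_mk]
    change SeqAlg.mk (Q f) * SeqAlg.mk (SeqAlg.compSeq m (z' i)) =
      SeqAlg.mk (SeqAlg.compSeq m (z' i)) * SeqAlg.mk (Q f)
    rw [← SeqAlg.mk_mul, ← SeqAlg.mk_mul]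
    refine mk_eq_of_eventually_le (r := fun n => 0 + e n) ?_ (by simpa using he0)
    filter_upwards [eventually_ge_atTop i] with n hn
    exact (hG n).commz _ (pS n f) i (Finset.mem_range.2 (by omega))
  · intro f f'
    rw [hΦ1, ← hH, SeqAlg.reindex_mk, hΦ, hΦ, hΦ, ← SeqAlg.mk_mul, ← SeqAlg.mk_mul]
    refine mk_eq_of_le (r := fun n => e n + ‖H‖ * (C * ‖p n f * p n f' - p n (f * f')‖) + e n)
      ?_ ?_
    · intro n
      exact (hG n).mul _ (pS n f) _ (pS n f') _ (pS n _)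
    · have t1 := ((hp3 f).mul (hp3 f')).sub (hp3 (f * f'))
      rw [sub_self] at t1
      have t2 := (he0.add (((tendsto_norm_zero.comp t1).const_mul C).const_mul ‖H‖)).add he0
      simpa using t2
  · intro f a
    rw [hΦ]
    change SeqAlg.mk (Q f) * SeqAlg.mk (SeqAlg.constSeq a) =
      SeqAlg.mk (SeqAlg.constSeq a) * SeqAlg.mk (Q f)
    rw [← SeqAlg.mk_mul, ← SeqAlg.mk_mul]
    refine mk_eq_of_le (r := fun n => e n + e n + 2 * Bd f * ‖a - pa n a‖) ?_ ?_
    · intro n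
      change ‖E n f * a - a * E n f‖ ≤ _
      have e1 : E n f * a - a * E n f = (E n f * pa n a - pa n a * E n f) +
          (E n f * (a - pa n a) - (a - pa n a) * E n f) := by
        rw [mul_sub, sub_mul]
        abel
      rw [e1]
      refine (norm_add_le _ _).trans (add_le_add ((hG n).comm _ (pS n f) _ (pT n a)) ?_)
      refine (norm_sub_le _ _).trans ?_
      have b1 : ‖E n f * (a - pa n a)‖ ≤ Bd f * ‖a - pa n a‖ :=
        (norm_mul_le _ _).trans (mul_le_mul_of_nonneg_right (hE n f) (norm_nonneg _))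
      have b2 : ‖(a - pa n a) * E n f‖ ≤ ‖a - pa n a‖ * Bd f :=
        (norm_mul_le _ _).trans (mul_le_mul_of_nonneg_left (hE n f) (norm_nonneg _))
      linarith
    · have t1 := ((tendsto_const_nhds (x := a)).sub (pa3 a))
      rw [sub_self] at t1
      have t2 := (he0.add he0).add ((tendsto_norm_zero.comp t1).const_mul (2 * Bd f))
      simpa using t2

end DIAG

end Pool.Agent.RokO2
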