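import Mathlib

/-!
# Cuntz pairs in a star ring

A Cuntz pair in a unital star ring `E` is a pair of isometries `a, b` with
`a a* + b b* = 1`.
-/

namespace Pool.Agent.RokO2

/-- Two isometries whose range projections sum to one. -/
@[ext]
structure CuntzPair (E : Type*) [Ring E] [StarRing E] where
  a : E
  b : E
  ha : star a * a = 1
  hb : star b * b = 1
  hab : a * star a + b * star b = 1

namespace CuntzPair

section Ring

variable {E : Type*} [Ring E] [StarRing E]

theorem star_a_mul_b (s : CuntzPair E) : star s.a * s.b = 0 := by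
  have h : star s.a * (s.a * star s.a + s.b * star s.b) * s.b = star s.a * s.b := by
    rw [s.hab, mul_one]
  have h2 : star s.a * (s.a * star s.a + s.b * star s.b) * s.b
      = star s.a * s.b + star s.a * s.b := by
    calc star s.a * (s.a * star s.a + s.b * star s.b) * s.b
        = (star s.a * s.a) * (star s.a * s.b) + (star s.a * s.b) * (star s.b * s.b) := by
          noncomm_ring
      _ = _ := by rw [s.ha, s.hb, one_mul, mul_one]
  have h3 := h.symm.trans h2
  exact (left_eq_add.mp h3)

theorem star_b_mul_a (s : CuntzPair E) : star s.b * s.a = 0 := by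
  have := congrArg star s.star_a_mul_b
  simpa using this

/-- cancellation rules in the form used by `simp [mul_assoc]`. -/
theorem ha' (s : CuntzPair E) (x : E) : star s.a * (s.a * x) = x := by
  rw [← mul_assoc, s.ha, one_mul]

theorem hb' (s : CuntzPair E) (x : E) : star s.b * (s.b * x) = x := by
  rw [← mul_assoc, s.hb, one_mul]

theorem star_a_mul_b' (s : CuntzPair E) (x : E) : star s.a * (s.b * x) = 0 := by
  rw [← mul_assoc, s.star_a_mul_b, zero_mul]

theorem star_b_mul_a' (s : CuntzPair E) (x : E) : star s.b * (s.a * x) = 0 := by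
  rw [← mul_assoc, s.star_b_mul_a, zero_mul]

/-- the bracket `[x,y] = a x a* + b y b*`. -/
def br (s : CuntzPair E) (x y : E) : E := s.a * x * star s.a + s.b * y * star s.b

theorem br_add (s : CuntzPair E) (x y x' y' : E) :
    s.br (x + x') (y + y') = s.br x y + s.br x' y' := by
  simp only [br]; noncomm_ring

theorem br_sub (s : CuntzPair E) (x y x' y' : E) :
    s.br (x - x') (y - y') = s.br x y - s.br x' y' := by
  simp only [br]; noncomm_ring

theorem br_star (s : CuntzPair E) (x y : E) : s.br (star x) (star y) = star (s.br x y) := by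
  simp only [br, star_add, star_mul, star_star, mul_assoc]

theorem br_one (s : CuntzPair E) : s.br 1 1 = 1 := by
  simp only [br, mul_one, s.hab]

theorem br_zero (s : CuntzPair E) : s.br 0 0 = 0 := by
  simp only [br, mul_zero, zero_mul, add_zero]

theorem br_mul (s : CuntzPair E) (x y x' y' : E) :
    s.br (x * x') (y * y') = s.br x y * s.br x' y' := by
  have e1 : s.br x y * s.br x' y' = s.a * x * (star s.a * (s.a * (x' * star s.a)))
      + s.a * x * (star s.a * (s.b * (y' * star s.b)))
      + s.b * y * (star s.b * (s.a * (x' * star s.a)))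
      + s.b * y * (star s.b * (s.b * (y' * star s.b))) := by
    simp only [br]; noncomm_ring
  rw [e1, s.ha', s.hb', s.star_a_mul_b', s.star_b_mul_a', br]
  noncomm_ring

/-- the pair transported by a unital star homomorphism -/
def map {F : Type*} [Ring F] [StarRing F] {S : Type*} [FunLike S E F] [RingHomClass S E F]
    [StarHomClass S E F] (f : S) (s : CuntzPair E) : CuntzPair F where
  a := f s.a
  b := f s.b
  ha := by rw [← map_star, ← map_mul, s.ha, map_one]
  hb := by rw [← map_star, ← map_mul, s.hb, map_one]
  hab := by rw [← map_star, ← map_star, ← map_mul, ← map_mul, ← map_add, s.hab, map_one]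

/-- left multiplication by a unitary -/
def smulU (u : unitary E) (s : CuntzPair E) : CuntzPair E where
  a := u * s.a
  b := u * s.b
  ha := by
    rw [star_mul, mul_assoc, ← mul_assoc (star (u : E)), Unitary.coe_star_mul_self, one_mul, s.ha]
  hb := by
    rw [star_mul, mul_assoc, ← mul_assoc (star (u : E)), Unitary.coe_star_mul_self, one_mul, s.hb]
  hab := by
    calc (u : E) * s.a * star (u * s.a) + u * s.b * star (u * s.b)
        = u * (s.a * star s.a + s.b * star s.b) * star (u : E) := by
          rw [star_mul, star_mul]; noncomm_ring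
      _ = 1 := by rw [s.hab, mul_one, (Unitary.mem_iff.mp u.2).2]

/-- The Cuntz family of `N+1` isometries with orthogonal ranges built from a Cuntz pair:
`fam s 0 = (1)`, `fam s (N+1) = (a, b * fam s N 0, b * fam s N 1, …)`. -/
def fam (s : CuntzPair E) : (N : ℕ) → Fin (N + 1) → E
  | 0 => fun _ => 1
  | (N + 1) => Fin.cons s.a (fun i => s.b * fam s N i)

theorem fam_star_mul (s : CuntzPair E) : ∀ (N : ℕ) (i j : Fin (N + 1)),
    star (s.fam N i) * s.fam N j = if i = j then 1 else 0
  | 0, i, j => by
      have hi : i = j := by omega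
      simp [fam, hi]
  | (N + 1), i, j => by
      refine Fin.cases ?_ (fun i => ?_) i <;> refine Fin.cases ?_ (fun j => ?_) j
      · simp [fam, s.ha]
      · simp only [fam, Fin.cons_zero, Fin.cons_succ, s.star_a_mul_b']
        rw [if_neg (Fin.succ_ne_zero j).symm]
      · simp only [fam, Fin.cons_zero, Fin.cons_succ, star_mul, mul_assoc, s.star_b_mul_a]
        rw [if_neg (Fin.succ_ne_zero i), mul_zero]
      · simp only [fam, Fin.cons_succ, star_mul, mul_assoc, s.hb', Fin.succ_inj]
        exact fam_star_mul s N i j

theorem fam_sum (s : CuntzPair E) : ∀ (N : ℕ), ∑ i, s.fam N i * star (s.fam N i) = 1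
  | 0 => by simp [fam]
  | (N + 1) => by
      rw [Fin.sum_univ_succ]
      simp only [fam, Fin.cons_zero, Fin.cons_succ, star_mul]
      have : ∑ i, s.b * s.fam N i * (star (s.fam N i) * star s.b)
          = s.b * (∑ i, s.fam N i * star (s.fam N i)) * star s.b := by
        rw [Finset.mul_sum, Finset.sum_mul]
        exact Finset.sum_congr rfl fun i _ => by simp only [mul_assoc]
      rw [this, fam_sum s N, mul_one, s.hab]

/-- The projections `r_i r_i*` of the Cuntz family. -/
def pr (s : CuntzPair E) (N : ℕ) (i : Fin (N + 1)) : E := s.fam N i * star (s.fam N i)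

theorem pr_star (s : CuntzPair E) (N : ℕ) (i : Fin (N + 1)) : star (s.pr N i) = s.pr N i := by
  simp [pr]

theorem pr_mul (s : CuntzPair E) (N : ℕ) (i j : Fin (N + 1)) :
    s.pr N i * s.pr N j = if i = j then s.pr N i else 0 := by
  have : s.pr N i * s.pr N j
      = s.fam N i * (star (s.fam N i) * s.fam N j) * star (s.fam N j) := by
    simp only [pr, mul_assoc]
  rw [this, fam_star_mul]
  split_ifs with h
  · subst h; simp [pr]
  · simp

theorem pr_sum (s : CuntzPair E) (N : ℕ) : ∑ i, s.pr N i = 1 := s.fam_sum N

end Ring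

section CStar

variable {E : Type*} [CStarAlgebra E]

theorem norm_le_one_of_isometry {x : E} (hx : star x * x = 1) : ‖x‖ ≤ 1 := by
  rcases subsingleton_or_nontrivial E with h | h
  · simp [Subsingleton.elim x 0]
  · have := CStarRing.norm_star_mul_self (x := x)
    rw [hx, norm_one] at this
    nlinarith [norm_nonneg x]

theorem norm_a_le (s : CuntzPair E) : ‖s.a‖ ≤ 1 := norm_le_one_of_isometry s.ha

theorem norm_b_le (s : CuntzPair E) : ‖s.b‖ ≤ 1 := norm_le_one_of_isometry s.hb

theorem norm_fam_le (s : CuntzPair E) (N : ℕ) (i : Fin (N + 1)) : ‖s.fam N i‖ ≤ 1 :=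
  norm_le_one_of_isometry (by rw [fam_star_mul, if_pos rfl])

theorem norm_pr_le (s : CuntzPair E) (N : ℕ) (i : Fin (N + 1)) : ‖s.pr N i‖ ≤ 1 := by
  refine (norm_mul_le _ _).trans ?_
  rw [norm_star]
  have := s.norm_fam_le N i
  nlinarith [norm_nonneg (s.fam N i)]

theorem norm_br_le (s : CuntzPair E) (x y : E) : ‖s.br x y‖ ≤ max ‖x‖ ‖y‖ := by
  let f : E × E →⋆ₐ[ℂ] E :=
    { toFun := fun p => s.br p.1 p.2
      map_one' := s.br_one
      map_mul' := fun p q => s.br_mul _ _ _ _
      map_zero' := s.br_zero
      map_add' := fun p q => s.br_add _ _ _ _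
      commutes' := fun r => by
        change s.a * (algebraMap ℂ E r) * star s.a + s.b * (algebraMap ℂ E r) * star s.b
          = algebraMap ℂ E r
        simp only [Algebra.algebraMap_eq_smul_one, smul_mul_assoc, mul_smul_comm, mul_one]
        rw [← smul_add, s.hab]
      map_star' := fun p => s.br_star _ _ }
  exact NonUnitalStarAlgHom.norm_apply_le f (x, y)

/-- the bracket of two unitaries is a unitary -/
def brU (s : CuntzPair E) (x y : unitary E) : unitary E :=
  ⟨s.br x y, by
    rw [Unitary.mem_iff, ← s.br_star, ← s.br_mul, ← s.br_mul]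
    simp [s.br_one]⟩

@[simp] theorem coe_brU (s : CuntzPair E) (x y : unitary E) : (s.brU x y : E) = s.br x y := rfl

end CStar

end CuntzPair

end Pool.Agent.RokO2
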