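import Mathlib
import Pool.Agent.RokO2.Pair
import Pool.Agent.RokO2.Defs

/-! Interface of the modules (all statements exactly as they must be proved). -/

open scoped BoundedContinuousFunction
open Filter Topology

namespace Pool.Agent.RokO2

universe u v

/-! ### [PATH]  file `Pool/Agent/RokO2/PathComp.lean` (imports Pair) -/
section PATH

variable {E : Type*} [CStarAlgebra E]

theorem joined_of_br (s : CuntzPair E) (x : unitary E) (h : ‖(x : E) - s.br x x‖ < 2) :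
    Joined (1 : unitary E) x := sorry

/-- the unitary `s.a t.a* + s.b t.b*`, which maps the pair `t` to the pair `s` -/
def CuntzPair.link (s t : CuntzPair E) : unitary E :=
  ⟨s.a * star t.a + s.b * star t.b, sorry⟩

theorem CuntzPair.smulU_link (s t : CuntzPair E) : CuntzPair.smulU (s.link t) t = s := sorry

theorem joined_link (s t : CuntzPair E) (haa : ‖s.a * t.a - t.a * s.a‖ ≤ 1 / 4)
    (hab : ‖s.a * t.b - t.b * s.a‖ ≤ 1 / 4) (hba : ‖s.b * t.a - t.a * s.b‖ ≤ 1 / 4)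
    (hbb : ‖s.b * t.b - t.b * s.b‖ ≤ 1 / 4) : Joined (1 : unitary E) (s.link t) := sorry

theorem exists_chain_of_joined {u : unitary E} (h : Joined (1 : unitary E) u) {ε : ℝ}
    (hε : 0 < ε) : ∃ (m : ℕ) (c : ℕ → unitary E), c 0 = 1 ∧ c m = u ∧
      ∀ k, ‖(c (k + 1) : E) - (c k : E)‖ ≤ ε := sorry

end PATH

/-! ### [AI]  file `Pool/Agent/RokO2/ApproxInner.lean` (imports Pair) -/
section AI

variable {E : Type*} [CStarAlgebra E]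

/-- domination lemma -/
theorem domination (φ ψ : CuntzPair E) {ε : ℝ} (hε : 0 < ε) :
    ∃ (χ r φ' : CuntzPair E), ‖χ.a - φ.a‖ ≤ ε ∧ ‖χ.b - φ.b‖ ≤ ε ∧
      χ.a * r.a = r.a * ψ.a ∧ χ.b * r.a = r.a * ψ.b ∧
      χ.a * r.b = r.b * φ'.a ∧ χ.b * r.b = r.b * φ'.b := sorry

theorem approx_inner (s : CuntzPair E) {ε : ℝ} (hε : 0 < ε) :
    ∃ u : unitary E, ‖(u : E) * s.a * star (u : E) - s.br s.a s.a‖ ≤ ε ∧
      ‖(u : E) * s.b * star (u : E) - s.br s.b s.b‖ ≤ ε := sorry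

theorem exists_central_pair (s : CuntzPair E)
    (hs : (StarAlgebra.adjoin ℂ ({s.a, s.b} : Set E)).topologicalClosure = ⊤)
    {K : Set E} (hK : IsCompact K) {ε : ℝ} (hε : 0 < ε) :
    ∃ t : CuntzPair E, ∀ k ∈ K, ‖t.a * k - k * t.a‖ ≤ ε ∧ ‖t.b * k - k * t.b‖ ≤ ε := sorry

end AI

/-! ### [OZ]  file `Pool/Agent/RokO2/OrderZero.lean` (imports Defs) -/
section OZ

theorem orderZero_mul {G M : Type*} [TopologicalSpace G] [CompactSpace G] [CStarAlgebra M]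
    (φ : C(G, ℂ) →ₗ[ℂ] M) (hφ : ∀ f, ‖φ f‖ ≤ ‖f‖)
    (h0 : ∀ f g : C(G, ℂ), IsPos f → IsPos g → f * g = 0 → φ f * φ g = 0)
    (f g : C(G, ℂ)) : φ f * φ g = φ 1 * φ (f * g) := sorry

theorem star_of_positive {G M : Type*} [TopologicalSpace G] [CompactSpace G] [CStarAlgebra M]
    (φ : C(G, ℂ) →ₗ[ℂ] M) (hpos : ∀ f, IsPos f → IsPos (φ f)) (f : C(G, ℂ)) :
    φ (star f) = star (φ f) := sorry

end OZ

/-! ### [EV]  file `Pool/Agent/RokO2/Ev.lean` (imports Defs) -/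
section EV

variable {X A M : Type*} [TopologicalSpace X] [CompactSpace X] [T2Space X] [CStarAlgebra A]
  [CStarAlgebra M]

/-- the function `x ↦ f x • a` -/
noncomputable def sm (f : C(X, ℂ)) (a : A) : C(X, A) := ⟨fun x => f x • a, by fun_prop⟩

theorem sm_induction {P : C(X, A) → Prop} (h : ∀ f a, P (sm f a))
    (hadd : ∀ F F', P F → P F' → P (F + F')) (hcl : IsClosed {F | P F}) (F : C(X, A)) : P F :=
  sorry

theorem exists_ev (γ : C(X, ℂ) →⋆ₐ[ℂ] M) (ι : A →⋆ₐ[ℂ] M) (h : ∀ f a, Commute (γ f) (ι a)) :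
    ∃ Ev : C(X, A) →⋆ₐ[ℂ] M, ∀ (f : C(X, ℂ)) (a : A), Ev (sm f a) = γ f * ι a := sorry

end EV

/-! ### [SPEC]  file `Pool/Agent/RokO2/Spec.lean` (imports Defs) -/
section SPEC

theorem exists_spec {G : Type v} {M : Type u} [TopologicalSpace G] [CompactSpace G] [T2Space G]
    [CStarAlgebra M] (φ₀ φ₁ : C(G, ℂ) →ₗ[ℂ] M)
    (hs₀ : ∀ f, φ₀ (star f) = star (φ₀ f)) (hs₁ : ∀ f, φ₁ (star f) = star (φ₁ f))
    (hm₀ : ∀ f g, φ₀ f * φ₀ g = φ₀ 1 * φ₀ (f * g)) (hm₁ : ∀ f g, φ₁ f * φ₁ g = φ₁ 1 * φ₁ (f * g))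
    (hp₀ : IsPos (φ₀ 1)) (hp₁ : IsPos (φ₁ 1))
    (hcomm : ∀ f g, Commute (φ₀ f) (φ₁ g)) :
    ∃ (X : Type u) (_ : TopologicalSpace X) (_ : CompactSpace X) (_ : T2Space X)
      (γ : C(X, ℂ) →⋆ₐ[ℂ] M) (h₀ h₁ : C(X, ℝ)) (g₀ g₁ : X → G),
      (∀ F, ‖γ F‖ = ‖F‖) ∧ (∀ x, 0 ≤ h₀ x) ∧ (∀ x, 0 ≤ h₁ x) ∧
      ContinuousOn g₀ {x | h₀ x ≠ 0} ∧ ContinuousOn g₁ {x | h₁ x ≠ 0} ∧
      (∀ (f : C(G, ℂ)) (F : C(X, ℂ)), (∀ x, F x = h₀ x * f (g₀ x)) → γ F = φ₀ f) ∧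
      (∀ (f : C(G, ℂ)) (F : C(X, ℂ)), (∀ x, F x = h₁ x * f (g₁ x)) → γ F = φ₁ f) ∧
      (∀ z : M, (∀ f, Commute z (φ₀ f)) → (∀ f, Commute z (φ₁ f)) → ∀ F, Commute z (γ F)) ∧
      (∀ (β : M →⋆ₐ[ℂ] M) (τ : C(G, G)), (∀ f, β (φ₀ f) = φ₀ (f.comp τ)) →
        (∀ f, β (φ₁ f) = φ₁ (f.comp τ)) →
        ∃ σ : C(X, X), (∀ F, β (γ F) = γ (F.comp σ)) ∧ (∀ x, h₀ (σ x) = h₀ x) ∧
          (∀ x, h₁ (σ x) = h₁ x) ∧ (∀ x, h₀ x ≠ 0 → g₀ (σ x) = τ (g₀ x)) ∧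
          (∀ x, h₁ x ≠ 0 → g₁ (σ x) = τ (g₁ x))) := sorry

end SPEC

/-! ### [CHINT]  file `Pool/Agent/RokO2/Inter.lean` (imports Pair) -/
section CHINT

variable {E : Type*} [CStarAlgebra E]

/-- the star homomorphism `c ↦ ∑ c_i p_i` -/
noncomputable def CuntzPair.prHom (s : CuntzPair E) (N : ℕ) : (Fin (N + 1) → ℂ) →⋆ₐ[ℂ] E where
  toFun := fun c => ∑ i, c i • s.pr N i
  map_one' := sorry
  map_mul' := sorry
  map_zero' := sorry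
  map_add' := sorry
  commutes' := sorry
  map_star' := sorry

/-- the domination isometry -/
noncomputable def CuntzPair.dom (s : CuntzPair E) (N : ℕ) (c : Fin (N + 1) → Fin (N + 1) → ℝ) : E :=
  ∑ i, ∑ l, (c i l : ℂ) • (s.fam N i * s.fam N l * star (s.fam N l))

theorem CuntzPair.dom_isometry (s : CuntzPair E) (N : ℕ) (c : Fin (N + 1) → Fin (N + 1) → ℝ)
    (hc : ∀ l, ∑ i, c i l ^ 2 = 1) : star (s.dom N c) * s.dom N c = 1 := sorry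

theorem CuntzPair.dom_intertwine (s : CuntzPair E) (N : ℕ) (c : Fin (N + 1) → Fin (N + 1) → ℝ)
    (hc : ∀ l, ∑ i, c i l ^ 2 = 1) (x z : Fin (N + 1) → ℂ) {ε : ℝ} (hε : 0 ≤ ε)
    (hxz : ∀ i l, c i l ≠ 0 → ‖x i - z l‖ ≤ ε) :
    ‖s.prHom N x * s.dom N c - s.dom N c * s.prHom N z‖ ≤ ε := sorry

/-- the unitary `X : φ → ψ ⊕ φ` built from an isometry `v` with `φ v = v ψ` -/
noncomputable def CuntzPair.inter (s : CuntzPair E) (v : E) : E :=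
  s.a * star s.a * star v + s.b * v * star s.b * star v + s.b * (1 - v * star v)

/-- the flip -/
noncomputable def CuntzPair.flip (s : CuntzPair E) : E := s.a * star s.b + s.b * star s.a

/-- `u = Y* F X` -/
noncomputable def CuntzPair.interU (s : CuntzPair E) (v w : E) : E :=
  star (s.inter w) * s.flip * s.inter v

theorem CuntzPair.interU_mem (s : CuntzPair E) {v w : E} (hv : star v * v = 1)
    (hw : star w * w = 1) : s.interU v w ∈ unitary E := sorry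

/-- here `x = φ(f)`, `y = ψ(f)` for fixed `f`; `C = 20` is not optimal. -/
theorem CuntzPair.interU_intertwine (s : CuntzPair E) {v w x y : E} (hv : star v * v = 1)
    (hw : star w * w = 1) {δ : ℝ} (h1 : ‖x * v - v * y‖ ≤ δ) (h2 : ‖star v * x - y * star v‖ ≤ δ)
    (h3 : ‖y * w - w * x‖ ≤ δ) (h4 : ‖star w * y - x * star w‖ ≤ δ)
    (hax : ‖s.a * x - x * s.a‖ ≤ δ) (hbx : ‖s.b * x - x * s.b‖ ≤ δ)
    (hax' : ‖star s.a * x - x * star s.a‖ ≤ δ) (hbx' : ‖star s.b * x - x * star s.b‖ ≤ δ)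
    (hay : ‖s.a * y - y * s.a‖ ≤ δ) (hby : ‖s.b * y - y * s.b‖ ≤ δ)
    (hay' : ‖star s.a * y - y * star s.a‖ ≤ δ) (hby' : ‖star s.b * y - y * star s.b‖ ≤ δ) :
    ‖s.interU v w * x - y * s.interU v w‖ ≤ 20 * δ := sorry

/-- finite nets with partitions of unity, uniform under left translation -/
theorem exists_net {G : Type*} [Group G] [TopologicalSpace G] [IsTopologicalGroup G]
    [CompactSpace G] [T2Space G] (F : Finset C(G, ℂ)) {ε : ℝ} (hε : 0 < ε) :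
    ∃ (N : ℕ) (x : Fin (N + 1) → G) (χ : Fin (N + 1) → C(G, ℝ)), (∀ i y, 0 ≤ χ i y) ∧
      (∀ y, ∑ i, χ i y = 1) ∧
      (∀ f ∈ F, ∀ i y, χ i y ≠ 0 → ∀ g, ‖f (g * x i) - f (g * y)‖ ≤ ε) := sorry

end CHINT

/-! ### [CHAIN]  file `Pool/Agent/RokO2/Chain.lean` -/
section CHAIN

/-- central pairs, uniformly on compact sets -/
def HasCentralPairs (A : Type*) [CStarAlgebra A] : Prop :=
  ∀ K : Set A, IsCompact K → ∀ ε : ℝ, 0 < ε → ∃ t : CuntzPair A,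
    ∀ k ∈ K, ‖t.a * k - k * t.a‖ ≤ ε ∧ ‖t.b * k - k * t.b‖ ≤ ε

theorem exists_chain {G A : Type*} [Group G] [TopologicalSpace G] [IsTopologicalGroup G]
    [CompactSpace G] [T2Space G] [CStarAlgebra A] (hA : HasCentralPairs A) (α : CAction G A)
    (F : Finset C(G, ℂ)) (K : Finset A) {ε : ℝ} (hε : 0 < ε) :
    ∃ (m : ℕ) (Ψ : ℕ → (C(G, ℂ) →⋆ₐ[ℂ] C(G × G, A))), 1 ≤ m ∧
      (∀ k g f g₀ g₁, Ψ k (Lt g f) (g * g₀, g * g₁) = α g (Ψ k f (g₀, g₁))) ∧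
      (∀ f g₀ g₁ g₁', Ψ 0 f (g₀, g₁) = Ψ 0 f (g₀, g₁')) ∧
      (∀ f g₀ g₀' g₁, Ψ m f (g₀, g₁) = Ψ m f (g₀', g₁)) ∧
      (∀ k, ∀ f ∈ F, ‖Ψ (k + 1) f - Ψ k f‖ ≤ ε) ∧
      (∀ k, ∀ f ∈ F, ∀ a ∈ K, ∀ p, ‖Ψ k f p * a - a * Ψ k f p‖ ≤ ε) := sorry

end CHAIN

/-! ### [MERGE]  file `Pool/Agent/RokO2/Merge.lean` -/
section MERGE

variable {G A : Type*} [Group G] [TopologicalSpace G] [IsTopologicalGroup G] [CompactSpace G]
  [CStarAlgebra A]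

/-- Order zero towers in the multiplicative form. -/
structure OZT (α : CAction G A) (φ : C(G, ℂ) →ₗ[ℂ] SeqAlg A) : Prop where
  bound : ∃ C : ℝ, ∀ f, ‖φ f‖ ≤ C * ‖f‖
  star' : ∀ f, φ (star f) = star (φ f)
  mul' : ∀ f g, φ f * φ g = φ 1 * φ (f * g)
  pos : IsPos (φ 1)
  equiv : ∀ g f, act α g (φ f) = φ (Lt g f)
  comm : ∀ f a, Commute (φ f) (SeqAlg.const A a)

theorem merge_approx [T2Space G] (hA : HasCentralPairs A) (α : CAction G A)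
    {φ₀ φ₁ : C(G, ℂ) →ₗ[ℂ] SeqAlg A} (h₀ : OZT α φ₀) (h₁ : OZT α φ₁)
    (hcomm : ∀ f g, Commute (φ₀ f) (φ₁ g)) (F : Finset C(G, ℂ)) (K : Finset A) {ε : ℝ}
    (hε : 0 < ε) :
    ∃ φ' : C(G, ℂ) →ₗ[ℂ] SeqAlg A, (∀ f, ‖φ' f‖ ≤ ‖φ₀ 1 + φ₁ 1‖ * ‖f‖) ∧
      (∀ f, φ' (star f) = star (φ' f)) ∧ φ' 1 = φ₀ 1 + φ₁ 1 ∧
      (∀ g f, act α g (φ' f) = φ' (Lt g f)) ∧
      (∀ z, (∀ f, Commute z (φ₀ f)) → (∀ f, Commute z (φ₁ f)) →
        (∀ a, Commute z (SeqAlg.const A a)) → ∀ f, Commute z (φ' f)) ∧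
      (∀ f ∈ F, ∀ f' ∈ F, ‖φ' f * φ' f' - φ' 1 * φ' (f * f')‖ ≤ ε) ∧
      (∀ f ∈ F, ∀ a ∈ K, ‖φ' f * SeqAlg.const A a - SeqAlg.const A a * φ' f‖ ≤ ε) := sorry

end MERGE

/-! ### [DIAG]  file `Pool/Agent/RokO2/Diag.lean` -/
section DIAG

variable {G A : Type*} [Group G] [TopologicalSpace G] [IsTopologicalGroup G] [CompactSpace G]
  [CStarAlgebra A]

/-- Baire category: norm continuity in the quotient gives asymptotic equicontinuity. -/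
theorem baire_equicontinuous [T2Space G] (α : CAction G A) (x : ℕ →ᵇ A)
    (hx : Continuous fun g => act α g (SeqAlg.mk x)) {ε : ℝ} (hε : 0 < ε) :
    ∃ U ∈ 𝓝 (1 : G), ∃ N : ℕ, ∀ n ≥ N, ∀ g ∈ U, ‖α g (x n) - x n‖ ≤ ε := sorry

theorem diag [T2Space G] [SecondCountableTopology G] [TopologicalSpace.SeparableSpace A]
    (α : CAction G A) (C : ℝ) (H : SeqAlg A) (z : ℕ → SeqAlg A)
    (h : ∀ (F : Finset C(G, ℂ)) (K : Finset A) (ε : ℝ), 0 < ε →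
      ∃ φ' : C(G, ℂ) →ₗ[ℂ] SeqAlg A, (∀ f, ‖φ' f‖ ≤ C * ‖f‖) ∧
        (∀ f, φ' (star f) = star (φ' f)) ∧ φ' 1 = H ∧
        (∀ g f, act α g (φ' f) = φ' (Lt g f)) ∧
        (∀ i f, Commute (φ' f) (z i)) ∧
        (∀ f ∈ F, ∀ f' ∈ F, ‖φ' f * φ' f' - φ' 1 * φ' (f * f')‖ ≤ ε) ∧
        (∀ f ∈ F, ∀ a ∈ K, ‖φ' f * SeqAlg.const A a - SeqAlg.const A a * φ' f‖ ≤ ε)) :
    ∃ (θ : SeqAlg A →⋆ₐ[ℂ] SeqAlg A) (Φ : C(G, ℂ) →ₗ[ℂ] SeqAlg A),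
      (∀ a, θ (SeqAlg.const A a) = SeqAlg.const A a) ∧
      (∀ g x, act α g (θ x) = θ (act α g x)) ∧
      (∀ f, ‖Φ f‖ ≤ C * ‖f‖) ∧ (∀ f, Φ (star f) = star (Φ f)) ∧ Φ 1 = θ H ∧
      (∀ g f, act α g (Φ f) = Φ (Lt g f)) ∧
      (∀ i f, Commute (Φ f) (θ (z i))) ∧
      (∀ f f', Φ f * Φ f' = Φ 1 * Φ (f * f')) ∧
      (∀ f a, Commute (Φ f) (SeqAlg.const A a)) := sorry

end DIAG

/-! ### [FINAL] -/
section FINAL

theorem final {G A : Type*} [Group G] [TopologicalSpace G] [IsTopologicalGroup G]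
    [CompactSpace G] [T2Space G] [SecondCountableTopology G] [CStarAlgebra A]
    (hA : IsCuntzTwo A) (α : CAction G A) (d : ℕ) (h : RokhlinDimCommLE α d) :
    HasRokhlinProperty α := sorry

end FINAL

end Pool.Agent.RokO2
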